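import Pool.Agent.TH617.HP.Fin2

set_option autoImplicit false

open Pool.Agent.TH762.AC Pool.Agent.TH931.LA Pool.Agent.TH617.HP

/-- Worst case and average case hardness of majority coincide for `ACC^0`: for every `e ≥ 1`,
`ACC^0 = TC^0` if and only if, for some modulus `m`, polynomial size constant depth circuits with
`MOD_m` gates agree with majority on a fraction `1 / 2 + 1 / (log n + 1) ^ e` of the inputs, for a
polynomially dense set of input lengths `n`.  The same holds for every further gate `G` in place of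
`MOD_m`. -/
theorem Pool.Agent.Results.MP_3586ff_lc.HalfPlus.result :
    (∀ e : ℕ, 1 ≤ e → (ACC0 = TC0 ↔ ∃ m, 2 ≤ m ∧ CorrelatesOften (fun _ k => k % m ≠ 0) e)) ∧
    ∀ (G : ℕ → ℕ → Prop) (e : ℕ), 1 ≤ e → (TC0 ⊆ {L | Decides G L} ↔ CorrelatesOften G e) :=
  ⟨acc0_eq_iff_often, tc0_sub_iff_often⟩
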