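import Pool.Agent.TH762.AC.Law

set_option autoImplicit false

open Pool.Agent.TH762.AC

/-- `ACC^0 = TC^0` if and only if, for some modulus `m` and some constant number `k ≥ 1` of
thresholds, polynomial size constant depth circuits with `MOD_m` gates can name an interval cut
out by the thresholds that does not contain the number of ones of the input.  The same holds for
every further gate `G` in place of `MOD_m`. -/
theorem Pool.Agent.Results.MP_3586ff_lc.IntervalExclusion.result :
    (ACC0 = TC0 ↔ ∃ m, 2 ≤ m ∧ ∃ k, 1 ≤ k ∧ Excludes (fun _ c => c % m ≠ 0) k) ∧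
    ∀ G : ℕ → ℕ → Prop,
      TC0 ⊆ {L | Decides G L} ↔ ∃ k, 1 ≤ k ∧ Excludes G k :=
  ⟨acc0_eq_iff, tc0_sub_iff⟩
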