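import Pool.Agent.TH931.LA.Period

set_option autoImplicit false

open Pool.Agent.TH762.AC Pool.Agent.TH931.LA

/-- `ACC^0 ≠ TC^0` if and only if, for every modulus `m`, size and depth, there are a scale `N ≥ 2`
and one number `d ≤ N` which is an almost-period of the layer profiles of all functions of
`n ≤ N ^ c` bits computed by circuits of this size and depth with `MOD_m` gates.  The same holds
for every further gate `G` in place of `MOD_m`. -/
theorem Pool.Agent.Results.MP_3586ff_lc.PeriodicLayers.result :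
    (∀ e c : ℕ, 3 ≤ c → (ACC0 ≠ TC0 ↔ ∀ m : ℕ, 2 ≤ m → ∀ a D : ℕ, ∃ N d : ℕ,
      2 ≤ N ∧ 1 ≤ d ∧ d ≤ N ∧ CommonPeriod (fun _ k => k % m ≠ 0) a D e c N d)) ∧
    ∀ (G : ℕ → ℕ → Prop) (e c : ℕ), 3 ≤ c → (¬ TC0 ⊆ {L | Decides G L} ↔
      ∀ a D : ℕ, ∃ N d : ℕ, 2 ≤ N ∧ 1 ≤ d ∧ d ≤ N ∧ CommonPeriod G a D e c N d) :=
  ⟨acc0_ne_iff, not_tc0_sub_iff⟩
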