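import Pool.Agent.TH707.IQ.Main

set_option autoImplicit false

open Pool.Agent.TH762.AC Pool.Agent.TH707.IQ

/-- Small questions about majorities are either trivial or as hard as majority.  A question of
length `n` asks for an `o < q n` with `R n β o`, where `β` is the vector of the majorities of
`k n` given words of length `n`; there are at most `c (log n + 1)` words and at most
`c (log n + 1) ^ c` possible answers, and every `β` has a right answer.

(1) If for no `n ≥ 2` one answer is right for all `β`, then `ACC^0 = TC^0` if and only if, for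
some `m`, polynomial size constant depth circuits with `MOD_m` gates answer all questions.

(2) If for all `n ≥ 2` every random answer that ignores the words is, for some `β`, right with
probability at most `ρ' n`, then it is already enough to be right with probability
`ρ n ≥ ρ' n + 1 / (c (log n + 1) ^ c)` on random words with arbitrary prescribed numbers of ones.

The same holds for every further gate `G` in place of `MOD_m`. -/
theorem Pool.Agent.Results.MP_3586ff_lc.SmallQuestions.result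
    (c : ℕ) (k q : ℕ → ℕ) (R : ∀ n, (Fin (k n) → Bool) → Fin (q n) → Prop)
    (hk : ∀ n, k n ≤ c * (Nat.log 2 n + 1)) (hq : ∀ n, q n ≤ c * (Nat.log 2 n + 1) ^ c)
    (hR : ∀ n β, ∃ o, R n β o) :
    ((∀ n, 2 ≤ n → ∀ o, ∃ β, ¬ R n β o) →
      (ACC0 = TC0 ↔ ∃ m, 2 ≤ m ∧ Answers (fun _ c => c % m ≠ 0) k q R) ∧
      ∀ G : ℕ → ℕ → Prop, (TC0 ⊆ {L | Decides G L} ↔ Answers G k q R)) ∧
    ∀ ρ ρ' : ℕ → ℝ, (∀ n, 2 ≤ n → Oblivious (k n) (q n) (R n) (ρ' n)) →
      (∀ n, 2 ≤ n → ρ' n + 1 / ((c : ℝ) * ((Nat.log 2 n : ℝ) + 1) ^ c) ≤ ρ n) →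
      (∀ n, ρ n ≤ 1) →
      (ACC0 = TC0 ↔ ∃ m, 2 ≤ m ∧ AnswersOften (fun _ c => c % m ≠ 0) k q R ρ) ∧
      ∀ G : ℕ → ℕ → Prop, (TC0 ⊆ {L | Decides G L} ↔ AnswersOften G k q R ρ) :=
  ⟨fun h => ⟨acc0_eq_iff_answers hk hq hR h, fun G => tc0_sub_iff_answers G hk hq hR h⟩,
    fun _ _ h2 h3 h4 => ⟨acc0_eq_iff_often hk hq hR h2 h3 h4,
      fun G => tc0_sub_iff_often G hk hq hR h2 h3 h4⟩⟩
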